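import Pool.Agent.Helper15.T5.Stmts
import Pool.Agent.Helper51.T4.RAT

set_option autoImplicit false

/-!
Rows ZTOT and CM: the even moments, and the moments on the cycle classes.
-/

open Finset MeasureTheory Filter Topology

namespace Pool.Agent.Helper15.T5

open Pool.Agent.Helper15.T4 Pool.Agent.Helper46.T5 Pool.Agent.Helper51.T4

theorem st_ZTOT (hTOT : ST_TOT) (hXZ : ST_XZ) (hSUMX : ST_SUMX) (hPSI0 : ST_PSI0) (hASY : ST_ASY)
    (hPK0 : ST_PK0) (hGSS : ST_GSS) (hXC : ST_XC) : ST_ZTOT := by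
  intro K
  -- the total number of pairings
  have l0 := rat_lim hSUMX hPSI0 hASY m0 (fun _ => 1) 1 hPK0
  have n0 := rat_norm (ι := Unit) 1 (by simp) (GG (QT m0.T (fun _ => 1) 1)) 6 (by rw [hGSS.1]; ring)
  generalize 2 * (((3 / (2 * Real.pi)) ^ ((Fintype.card Unit : ℝ) / 2) : ℝ) : ℂ) *
    GG (QT m0.T (fun _ => 1) 1) = c0 at l0 n0
  have n0' : ‖c0‖ = Real.sqrt 2 := by
    symm
    rw [Real.sqrt_eq_iff_mul_self_eq (by norm_num) (norm_nonneg _), ← pow_two, n0]
    norm_num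
  have hB : Tendsto (fun N : ℕ => ((PM (univ : Finset (HE (2 * N)))).card : ℝ) / NF 1 N) atTop
      (𝓝 (Real.sqrt 2)) := by
    rw [← n0']
    refine l0.norm.congr (fun N => ?_)
    have s0 : ∑ M ∈ PM (univ : Finset (HE (2 * N))), m0.X M =
        ((((PM (univ : Finset (HE (2 * N)))).card : ℝ)) : ℂ) := by
      rw [Finset.sum_congr rfl (fun M _ => (hXC (2 * N) M).1)]
      simp
    rw [s0, norm_div, Complex.norm_real, Complex.norm_real, Real.norm_eq_abs, Real.norm_eq_abs,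
      abs_of_nonneg (by positivity), abs_of_pos (rat_NF_pos one_pos N)]
  -- the moments
  have hA : Tendsto (fun N : ℕ => (∑ M ∈ PM (univ : Finset (HE (2 * N))), ((Zc M : ℤ) : ℝ) ^ (2 * K)) /
      (NF 1 N * sN N ^ K)) atTop (𝓝 (Real.sqrt 2 * mom K)) := by
    have h1 := (Complex.continuous_re.tendsto _).comp (hTOT K)
    rw [Complex.ofReal_re] at h1
    refine h1.congr (fun N => ?_)
    have h2 : GI (fun x => (mJ (Fin K × Fin 2)).P x ^ (2 * N)) =
        ((∑ M ∈ PM (univ : Finset (HE (2 * N))), ((Zc M : ℤ) : ℝ) ^ (2 * K) : ℝ) : ℂ) := by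
      rw [← rat_sum hSUMX hPSI0 (mJ (Fin K × Fin 2)) (2 * N)]
      push_cast
      refine Finset.sum_congr rfl (fun M _ => ?_)
      rw [hXZ, Fintype.card_prod, Fintype.card_fin, Fintype.card_fin, mul_comm K 2]
    simp only [Function.comp_apply]
    rw [h2, ← Complex.ofReal_div, Complex.ofReal_re]
  have hs : Real.sqrt 2 ≠ 0 := by positivity
  have h3 := hA.div hB hs
  have h4 : Real.sqrt 2 * mom K / Real.sqrt 2 = mom K := by
    field_simp
  rw [h4] at h3
  refine h3.congr (fun N => ?_)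
  have hN := (rat_NF_pos (q := 1) one_pos N).ne'
  simp only [Pi.div_apply]
  rw [div_div_div_eq]
  have e : NF 1 N * sN N ^ K * ((PM (univ : Finset (HE (2 * N)))).card : ℝ) =
      (((PM (univ : Finset (HE (2 * N)))).card : ℝ) * sN N ^ K) * NF 1 N := by ring
  rw [e]
  exact mul_div_mul_right _ _ hN

lemma h25_WK (K N : ℕ) (M : Finset (Sym2 (HE (2 * N)))) (hM : M ∈ PM (univ : Finset (HE (2 * N)))) :
    WK K N M * ∑ M' ∈ PM (univ : Finset (HE (2 * N))), ((Zc M' : ℤ) : ℝ) ^ (2 * K) =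
      ((Zc M : ℤ) : ℝ) ^ (2 * K) := by
  unfold WK
  have hn : ∀ M' : Finset (Sym2 (HE (2 * N))), 0 ≤ ((Zc M' : ℤ) : ℝ) ^ (2 * K) := by
    intro M'
    rw [pow_mul]
    positivity
  by_cases h : ∑ M' ∈ PM (univ : Finset (HE (2 * N))), ((Zc M' : ℤ) : ℝ) ^ (2 * K) = 0
  · rw [h, mul_zero]
    exact (((Finset.sum_eq_zero_iff_of_nonneg (fun M' _ => hn M')).mp h) M hM).symm
  · exact div_mul_cancel₀ _ h

open Classical in
theorem st_CM (hTL : ST_TL) (hPOI : ST_POI) (hSERT : ST_SERT) (hZTOT : ST_ZTOT) : ST_CM := by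
  intro K m z
  have ht : ∀ k, 0 ≤ tau5 k ^ K := by
    intro k
    rcases Nat.eq_zero_or_pos k with h | h
    · subst h
      rw [hSERT.1]
      positivity
    · have := (hSERT.2.1 k h).le
      positivity
  have h1 := hPOI (WK K) (fun k => tau5 k ^ K) (hTL K) ht m z
  have h2 := (hZTOT K).mul h1
  refine h2.congr (fun N => ?_)
  have h3 : ∀ M ∈ (PM (univ : Finset (HE (2 * N)))).filter (fun M => (fun k : Fin m => Zs m k M) = z),
      (((Zc M : ℤ) : ℝ) ^ 2 / sN N) ^ K = WK K N M *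
        (∑ M' ∈ PM (univ : Finset (HE (2 * N))), ((Zc M' : ℤ) : ℝ) ^ (2 * K)) / sN N ^ K := by
    intro M hM
    rw [h25_WK K N M (Finset.mem_filter.mp hM).1, div_pow, ← pow_mul]
  rw [Finset.sum_congr rfl h3, ← Finset.sum_div, ← Finset.sum_mul, div_div, mul_comm (sN N ^ K),
    mul_div_assoc, mul_comm]

end Pool.Agent.Helper15.T5
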