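import Pool.Agent.Helper46.T5.Stmts

set_option autoImplicit false

/-!
Row GINT: the Gaussian integral of the Hessian at the peak. The change of variables to the coordinates
in an orthonormal family (`orth_cov`) may be of use in other rows.
-/

open Finset MeasureTheory Filter Topology WithLp

namespace Pool.Agent.Helper46.T5

open Pool.Agent.Helper15.T4

section cov

variable {ι B : Type} [Fintype ι] [Fintype B] [DecidableEq B]

lemma h25_inner (v x : ι → ℝ) :
    inner ℝ (toLp 2 v : EuclideanSpace ℝ ι) (toLp 2 x : EuclideanSpace ℝ ι) = ip v x := by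
  rw [PiLp.inner_apply]
  unfold ip
  refine Finset.sum_congr rfl (fun i _ => ?_)
  simp [mul_comm]

lemma h25_onb (v : B → ι → ℝ) (ho : ∀ b c, ip (v b) (v c) = if b = c then 1 else 0)
    (hc : Fintype.card B = Fintype.card ι) :
    ∃ ob : OrthonormalBasis B ℝ (EuclideanSpace ℝ ι), ∀ b, ob b = toLp 2 (v b) := by
  have hon : Orthonormal ℝ (fun b => (toLp 2 (v b) : EuclideanSpace ℝ ι)) := by
    rw [orthonormal_iff_ite]
    intro b c
    rw [h25_inner, ho]
  have hcf : Fintype.card B = Module.finrank ℝ (EuclideanSpace ℝ ι) := by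
    rw [finrank_euclideanSpace, hc]
  rcases isEmpty_or_nonempty B with hB | hB
  · have h0 : Module.finrank ℝ (EuclideanSpace ℝ ι) = 0 := by
      rw [← hcf, Fintype.card_eq_zero]
    have hs : Subsingleton (EuclideanSpace ℝ ι) := Module.finrank_zero_iff.mp h0
    refine ⟨OrthonormalBasis.mk (v := fun b => (toLp 2 (v b) : EuclideanSpace ℝ ι)) hon ?_, ?_⟩
    · intro x _
      rw [Subsingleton.elim x 0]
      exact Submodule.zero_mem _
    · intro b
      exact (IsEmpty.false b).elim
  · refine ⟨(basisOfOrthonormalOfCardEqFinrank hon hcf).toOrthonormalBasis ?_, ?_⟩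
    · rw [coe_basisOfOrthonormalOfCardEqFinrank]
      exact hon
    · intro b
      rw [Module.Basis.coe_toOrthonormalBasis, coe_basisOfOrthonormalOfCardEqFinrank]

/-- Change of variables to the coordinates in an orthonormal family of full size. -/
theorem h25_cov_mp (v : B → ι → ℝ) (ho : ∀ b c, ip (v b) (v c) = if b = c then 1 else 0)
    (hc : Fintype.card B = Fintype.card ι) :
    MeasurePreserving (fun x : ι → ℝ => fun b => ip (v b) x) ∧
      MeasurableEmbedding (fun x : ι → ℝ => fun b => ip (v b) x) := by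
  obtain ⟨ob, hob⟩ := h25_onb v ho hc
  have h1 : (fun x : ι → ℝ => fun b => ip (v b) x) =
      fun x => (MeasurableEquiv.toLp 2 (B → ℝ)).symm (ob.measurableEquiv (MeasurableEquiv.toLp 2 (ι → ℝ) x)) := by
    funext x b
    have : (MeasurableEquiv.toLp 2 (B → ℝ)).symm (ob.measurableEquiv (MeasurableEquiv.toLp 2 (ι → ℝ) x)) b
        = ob.repr (toLp 2 x) b := rfl
    rw [this, OrthonormalBasis.repr_apply_apply, hob, h25_inner]
  rw [h1]
  have hp1 : MeasurePreserving (MeasurableEquiv.toLp 2 (ι → ℝ)) :=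
    (EuclideanSpace.volume_preserving_symm_measurableEquiv_toLp ι).symm
  have hp2 : MeasurePreserving (ob.measurableEquiv) := ob.measurePreserving_measurableEquiv
  have hp3 : MeasurePreserving (MeasurableEquiv.toLp 2 (B → ℝ)).symm :=
    EuclideanSpace.volume_preserving_symm_measurableEquiv_toLp B
  refine ⟨hp3.comp (hp2.comp hp1), ?_⟩
  exact (MeasurableEquiv.measurableEmbedding _).comp
    ((MeasurableEquiv.measurableEmbedding _).comp (MeasurableEquiv.measurableEmbedding _))

theorem h25_cov {E : Type} [NormedAddCommGroup E] [NormedSpace ℝ E] (v : B → ι → ℝ)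
    (ho : ∀ b c, ip (v b) (v c) = if b = c then 1 else 0)
    (hc : Fintype.card B = Fintype.card ι) (f : (B → ℝ) → E) :
    ∫ x : ι → ℝ, f (fun b => ip (v b) x) = ∫ y : B → ℝ, f y := by
  obtain ⟨h1, h2⟩ := h25_cov_mp v ho hc
  exact h1.integral_comp h2 f

end cov

lemma h25_gauss {B : Type} [Fintype B] (a : B → ℝ) :
    ∫ y : B → ℝ, Real.exp (-(∑ b, a b * y b ^ 2) / 2) =
      ∏ b, Real.sqrt (2 * Real.pi / a b) := by
  have h1 : (fun y : B → ℝ => Real.exp (-(∑ b, a b * y b ^ 2) / 2)) =
      fun y => ∏ b, (fun (b : B) (z : ℝ) => Real.exp (-(a b / 2) * z ^ 2)) b (y b) := by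
    funext y
    rw [← Real.exp_sum]
    congr 1
    rw [← Finset.sum_neg_distrib, Finset.sum_div]
    refine Finset.sum_congr rfl (fun b _ => ?_)
    ring
  have h2 := integral_fintype_prod_volume_eq_prod (𝕜 := ℝ) (ι := B) (E := fun _ => ℝ)
    (fun (b : B) (z : ℝ) => Real.exp (-(a b / 2) * z ^ 2))
  rw [h1, h2]
  refine Finset.prod_congr rfl (fun b _ => ?_)
  have h3 := integral_gaussian (a b / 2)
  rw [h3]
  congr 1
  rw [div_div_eq_mul_div, mul_comm]

open Classical in
theorem st_GINT (hHES : ST_HES) (hEBO : ST_EBO) : ST_GINT := by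
  intro K
  have hcard : Fintype.card (Fin K → Fin 9) = Fintype.card (Fin K × Fin 2 → Fin 3) := by
    rw [Fintype.card_fun, Fintype.card_fun, Fintype.card_prod, Fintype.card_fin, Fintype.card_fin,
      Fintype.card_fin, Fintype.card_fin, mul_comm, pow_mul]
    norm_num
  set a : (Fin K → Fin 9) → ℝ := fun b => ev5 b + if b ∈ Tan K then 1 else 0 with ha
  have hq : ∀ t : (Fin K × Fin 2 → Fin 3) → ℝ, Q5 K t + tq K t = ∑ b, a b * ip (eb b) t ^ 2 := by
    intro t
    rw [(hHES K t).1]
    unfold tq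
    have : ∑ b ∈ Tan K, ip (eb b) t ^ 2 = ∑ b, (if b ∈ Tan K then 1 else 0) * ip (eb b) t ^ 2 := by
      simp only [ite_mul, one_mul, zero_mul]
      rw [Finset.sum_ite_mem, Finset.univ_inter]
    rw [this, ← Finset.sum_add_distrib]
    refine Finset.sum_congr rfl (fun b _ => ?_)
    rw [ha]
    ring
  have h1 := h25_cov (E := ℝ) (fun b : Fin K → Fin 9 => eb b) (hEBO K).1 hcard
    (fun y => Real.exp (-(∑ b, a b * y b ^ 2) / 2))
  have h2 : ∫ t, Real.exp (-(Q5 K t + tq K t) / 2) =
      ∫ t : (Fin K × Fin 2 → Fin 3) → ℝ, Real.exp (-(∑ b, a b * ip (eb b) t ^ 2) / 2) := by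
    congr 1
    funext t
    rw [hq]
  rw [h2, h1, h25_gauss]
  have h3 : ∀ b, Real.sqrt (2 * Real.pi / a b) = Real.sqrt (2 * Real.pi) * (Real.sqrt (a b))⁻¹ := by
    intro b
    rw [Real.sqrt_div (by positivity), div_eq_mul_inv]
  rw [Finset.prod_congr rfl (fun b _ => h3 b), Finset.prod_mul_distrib, Finset.prod_const,
    Finset.card_univ]
  congr 1
  rw [Fintype.card_fun, Fintype.card_fin, Fintype.card_fin, Real.sqrt_eq_rpow, ← Real.rpow_natCast,
    ← Real.rpow_mul (by positivity)]
  congr 1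
  push_cast
  ring

end Pool.Agent.Helper46.T5
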