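import Mathlib
import Pool.Agent.Helper46.T5.Defs

set_option autoImplicit false

/-!
For every `ε > 0` there is a real polynomial `f ≥ 0` with `f 0 = 1` whose mean at the square of a standard
Gaussian variable is at most `ε`.
-/

open Finset Polynomial

namespace Pool.Agent.Helper25.T5

open Pool.Agent.Helper46.T5

/-- Moment of order `k` of a standard Gaussian variable. -/
noncomputable def gm (k : ℕ) : ℝ := if Even k then df (k / 2) else 0

lemma gm_two_mul (k : ℕ) : gm (2 * k) = df k := by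
  unfold gm
  rw [if_pos (even_two_mul k)]
  congr 1
  omega

lemma gm_zero : gm 0 = 1 := by
  simp [gm, df]

lemma gm_one : gm 1 = 0 := by
  simp [gm]

lemma gm_add_two (k : ℕ) : gm (k + 2) = ((k : ℝ) + 1) * gm k := by
  unfold gm
  by_cases h : Even k
  · have h2 : Even (k + 2) := by
      rcases h with ⟨r, hr⟩
      exact ⟨r + 1, by omega⟩
    rw [if_pos h, if_pos h2]
    rcases h with ⟨r, hr⟩
    have e1 : (k + 2) / 2 = r + 1 := by omega
    have e2 : k / 2 = r := by omega
    rw [e1, e2]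
    unfold df
    rw [Finset.prod_range_succ]
    have : (k : ℝ) = 2 * (r : ℝ) := by
      rw [hr]; push_cast; ring
    rw [this]
    ring
  · have h2 : ¬ Even (k + 2) := by
      intro h3
      apply h
      rcases h3 with ⟨r, hr⟩
      exact ⟨r - 1, by omega⟩
    rw [if_neg h, if_neg h2]
    ring

/-- The Gaussian mean of a polynomial. -/
noncomputable def Lf : ℝ[X] →ₗ[ℝ] ℝ := Polynomial.lsum (fun k => gm k • (LinearMap.id : ℝ →ₗ[ℝ] ℝ))

lemma Lf_monomial (n : ℕ) (a : ℝ) : Lf (monomial n a) = gm n * a := by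
  unfold Lf
  rw [Polynomial.lsum_apply, Polynomial.sum_monomial_index]
  · simp
  · simp

lemma Lf_X_mul (p : ℝ[X]) : Lf (X * p) = Lf (derivative p) := by
  induction p using Polynomial.induction_on' with
  | add p q hp hq =>
    rw [mul_add, map_add, hp, hq, ← map_add, derivative_add]
  | monomial n a =>
    rw [X_mul_monomial, derivative_monomial, Lf_monomial, Lf_monomial]
    rcases n with _ | n
    · simp [gm_one]
    · rw [gm_add_two]
      have : n + 1 - 1 = n := by omega
      rw [this]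
      push_cast
      ring

/-- Hermite polynomials with real coefficients. -/
noncomputable def H (n : ℕ) : ℝ[X] := (hermite n).map (Int.castRingHom ℝ)

lemma H_zero : H 0 = 1 := by
  simp [H]

lemma H_succ (n : ℕ) : H (n + 1) = X * H n - derivative (H n) := by
  unfold H
  rw [hermite_succ, Polynomial.map_sub, Polynomial.map_mul, Polynomial.map_X, Polynomial.derivative_map]

lemma Lf_H_succ (n : ℕ) (q : ℝ[X]) : Lf (H (n + 1) * q) = Lf (H n * derivative q) := by
  rw [H_succ, sub_mul, map_sub, mul_assoc, Lf_X_mul, derivative_mul, map_add]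
  ring

lemma Lf_H (n : ℕ) (q : ℝ[X]) : Lf (H n * q) = Lf (derivative^[n] q) := by
  induction n generalizing q with
  | zero => simp [H_zero]
  | succ n ih => rw [Lf_H_succ, ih, Function.iterate_succ_apply]

lemma H_coeff (n k : ℕ) : (H n).coeff k = (((hermite n).coeff k : ℤ) : ℝ) := by
  unfold H
  rw [coeff_map]
  simp

lemma orth_lt {m n : ℕ} (h : m < n) : Lf (H n * H m) = 0 := by
  rw [Lf_H]
  have : derivative^[n] (H m) = 0 := by
    apply Polynomial.iterate_derivative_eq_zero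
    refine lt_of_le_of_lt ?_ h
    unfold H
    refine (Polynomial.natDegree_map_le).trans ?_
    rw [natDegree_hermite]
  rw [this, map_zero]

lemma orth_ne {m n : ℕ} (h : m ≠ n) : Lf (H n * H m) = 0 := by
  rcases Nat.lt_or_gt_of_ne h with h1 | h1
  · exact orth_lt h1
  · rw [mul_comm]; exact orth_lt h1

lemma orth_self (n : ℕ) : Lf (H n * H n) = (n.factorial : ℝ) := by
  rw [Lf_H]
  have : derivative^[n] (H n) = monomial 0 (n.factorial : ℝ) := by
    ext m
    rw [Polynomial.coeff_iterate_derivative, H_coeff, coeff_monomial]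
    rcases Nat.eq_zero_or_pos m with hm | hm
    · subst hm
      simp [Nat.descFactorial_self]
    · rw [if_neg (by omega), coeff_hermite_of_lt (by omega)]
      simp
  rw [this, Lf_monomial, gm_zero, one_mul]

/-- Weights of the extremal polynomial. -/
noncomputable def cw (j : ℕ) : ℝ := (H (2 * j)).coeff 0 / ((2 * j).factorial : ℝ)

/-- The square norm. -/
noncomputable def SS (m : ℕ) : ℝ := ∑ j ∈ range m, cw j ^ 2 * ((2 * j).factorial : ℝ)

/-- The extremal polynomial before normalisation. -/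
noncomputable def G0 (m : ℕ) : ℝ[X] := ∑ j ∈ range m, cw j • H (2 * j)

lemma G0_coeff_zero (m : ℕ) : (G0 m).coeff 0 = SS m := by
  unfold G0 SS
  rw [Polynomial.finsetSum_coeff]
  refine Finset.sum_congr rfl (fun j _ => ?_)
  rw [coeff_smul, smul_eq_mul]
  have h : ((2 * j).factorial : ℝ) ≠ 0 := by positivity
  unfold cw
  field_simp

lemma Lf_G0 (m : ℕ) : Lf (G0 m * G0 m) = SS m := by
  unfold G0 SS
  rw [Finset.sum_mul_sum, map_sum]
  refine Finset.sum_congr rfl (fun i hi => ?_)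
  rw [map_sum, Finset.sum_eq_single i]
  · rw [smul_mul_smul_comm, map_smul, orth_self, smul_eq_mul]
    ring
  · intro j _ hj
    rw [smul_mul_smul_comm, map_smul, orth_ne (by omega), smul_zero]
  · intro h; exact absurd hi h

lemma G0_odd (m k : ℕ) (hk : Odd k) : (G0 m).coeff k = 0 := by
  unfold G0
  rw [Polynomial.finsetSum_coeff]
  refine Finset.sum_eq_zero (fun j _ => ?_)
  rw [coeff_smul, H_coeff, coeff_hermite_of_odd_add]
  · simp
  · rcases hk with ⟨r, hr⟩
    exact ⟨j + r, by omega⟩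

open scoped Nat in
lemma term_ge (j : ℕ) (hj : 1 ≤ j) : 1 / (2 * (j : ℝ)) ≤ cw j ^ 2 * ((2 * j).factorial : ℝ) := by
  have hc : (H (2 * j)).coeff 0 = (-1 : ℝ) ^ j * (((2 * j - 1)‼ : ℕ) : ℝ) := by
    rw [H_coeff]
    have := coeff_hermite_explicit j 0
    rw [add_zero] at this
    rw [this]
    push_cast
    simp
  have hf : ((2 * j).factorial : ℝ) = (((2 * j)‼ : ℕ) : ℝ) * (((2 * j - 1)‼ : ℕ) : ℝ) := by
    obtain ⟨i, rfl⟩ : ∃ i, j = i + 1 := ⟨j - 1, by omega⟩
    have e : 2 * (i + 1) = (2 * i + 1) + 1 := by ring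
    have e2 : 2 * (i + 1) - 1 = 2 * i + 1 := by omega
    rw [e2, e, Nat.factorial_eq_mul_doubleFactorial]
    push_cast
    rfl
  have hd : (((2 * j)‼ : ℕ) : ℝ) ≤ 2 * (j : ℝ) * (((2 * j - 1)‼ : ℕ) : ℝ) := by
    obtain ⟨i, rfl⟩ : ∃ i, j = i + 1 := ⟨j - 1, by omega⟩
    have e : 2 * (i + 1) = 2 * i + 2 := by ring
    have e2 : 2 * (i + 1) - 1 = 2 * i + 1 := by omega
    rw [e2, e, Nat.doubleFactorial_add_two]
    have h3 : (2 * i)‼ ≤ (2 * i + 1)‼ := by
      clear hc hf hj e e2
      induction i with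
      | zero => simp
      | succ i ih =>
        have a1 : 2 * (i + 1) = 2 * i + 2 := by ring
        have a2 : 2 * (i + 1) + 1 = (2 * i + 1) + 2 := by ring
        rw [a2, a1, Nat.doubleFactorial_add_two, Nat.doubleFactorial_add_two]
        exact Nat.mul_le_mul (by omega) ih
    have h4 : (((2 * i)‼ : ℕ) : ℝ) ≤ (((2 * i + 1)‼ : ℕ) : ℝ) := by exact_mod_cast h3
    push_cast
    have h5 : (0 : ℝ) ≤ 2 * (i : ℝ) + 2 := by positivity
    nlinarith [mul_le_mul_of_nonneg_left h4 h5]
  have hp : (0 : ℝ) < (((2 * j - 1)‼ : ℕ) : ℝ) := by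
    exact_mod_cast Nat.doubleFactorial_pos _
  have hq : (0 : ℝ) < (((2 * j)‼ : ℕ) : ℝ) := by
    exact_mod_cast Nat.doubleFactorial_pos _
  have hj0 : (0 : ℝ) < j := by exact_mod_cast hj
  unfold cw
  rw [hc, hf]
  have hs : ((-1 : ℝ) ^ j) ^ 2 = 1 := by
    rw [← pow_mul, mul_comm, pow_mul]; simp
  have e3 : ((-1 : ℝ) ^ j * (((2 * j - 1)‼ : ℕ) : ℝ) / ((((2 * j)‼ : ℕ) : ℝ) * (((2 * j - 1)‼ : ℕ) : ℝ))) ^ 2
      * ((((2 * j)‼ : ℕ) : ℝ) * (((2 * j - 1)‼ : ℕ) : ℝ))
      = (((2 * j - 1)‼ : ℕ) : ℝ) / (((2 * j)‼ : ℕ) : ℝ) := by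
    rw [div_pow, mul_pow, hs]
    field_simp
  rw [e3, div_le_div_iff₀ (by positivity) hq]
  linarith

lemma SS_tendsto : Filter.Tendsto SS Filter.atTop Filter.atTop := by
  have h1 : Filter.Tendsto (fun n : ℕ => ∑ i ∈ range n, (1 / ((i : ℝ) + 1))) Filter.atTop Filter.atTop :=
    Real.tendsto_sum_range_one_div_nat_succ_atTop
  have h2 : ∀ n : ℕ, (1 / 2) * ∑ i ∈ range n, (1 / ((i : ℝ) + 1)) ≤ SS (n + 1) := by
    intro n
    unfold SS
    rw [Finset.sum_range_succ', Finset.mul_sum]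
    have h3 : ∑ i ∈ range n, 1 / 2 * (1 / ((i : ℝ) + 1)) ≤
        ∑ k ∈ range n, cw (k + 1) ^ 2 * ((2 * (k + 1)).factorial : ℝ) := by
      refine Finset.sum_le_sum (fun i _ => ?_)
      have := term_ge (i + 1) (by omega)
      refine le_trans (le_of_eq ?_) this
      push_cast
      field_simp
    have h4 : 0 ≤ cw 0 ^ 2 * ((2 * 0).factorial : ℝ) := by positivity
    exact h3.trans (le_add_of_nonneg_right h4)
  rw [← Filter.tendsto_add_atTop_iff_nat 1]
  exact Filter.tendsto_atTop_mono h2 (Filter.Tendsto.const_mul_atTop (by norm_num) h1)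

/-- **The end polynomial.** -/
theorem poly_end_poly (ε : ℝ) (hε : 0 < ε) :
    ∃ g : ℝ[X], g.coeff 0 = 1 ∧ ∑ k ∈ range ((g * g).natDegree + 1), (g * g).coeff k * df k ≤ ε := by
  obtain ⟨m, hm⟩ := (SS_tendsto.eventually_ge_atTop (1 / ε + 1)).exists
  have hS : 0 < SS m := by
    have : 0 < 1 / ε := by positivity
    linarith
  set G : ℝ[X] := (SS m)⁻¹ • G0 m with hG
  set g : ℝ[X] := Polynomial.contract 2 G with hg
  have hexp : Polynomial.expand ℝ 2 g = G := by
    ext n
    rw [Polynomial.coeff_expand (by norm_num)]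
    split_ifs with h
    · rw [hg, Polynomial.coeff_contract (by norm_num), Nat.div_mul_cancel h]
    · rw [hG, coeff_smul, G0_odd m n (by rw [← Nat.not_even_iff_odd]; exact fun h3 => h h3.two_dvd)]
      simp
  refine ⟨g, ?_, ?_⟩
  · rw [hg, Polynomial.coeff_contract (by norm_num), hG, coeff_smul, Nat.zero_mul, G0_coeff_zero,
      smul_eq_mul, inv_mul_cancel₀ hS.ne']
  · have h1 : Lf (G * G) = (SS m)⁻¹ := by
      rw [hG, smul_mul_smul_comm, map_smul, Lf_G0, smul_eq_mul]
      field_simp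
    have h2 : Lf (G * G) = ∑ k ∈ range ((g * g).natDegree + 1), (g * g).coeff k * df k := by
      have h3 : G * G = ∑ k ∈ range ((g * g).natDegree + 1), monomial (2 * k) ((g * g).coeff k) := by
        rw [← hexp, ← map_mul]
        conv_lhs => rw [Polynomial.as_sum_range (g * g)]
        rw [map_sum]
        refine Finset.sum_congr rfl (fun k _ => ?_)
        rw [Polynomial.expand_monomial, mul_comm]
      rw [h3, map_sum]
      refine Finset.sum_congr rfl (fun k _ => ?_)
      rw [Lf_monomial, gm_two_mul]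
      ring
    rw [← h2, h1]
    rw [inv_le_comm₀ hS hε, ← one_div]
    linarith

/-- **The end polynomial**, by its coefficients. -/
theorem poly_end (ε : ℝ) (hε : 0 < ε) :
    ∃ m : ℕ, ∃ c : ℕ → ℝ, c 0 = 1 ∧ (∀ y : ℝ, 0 ≤ ∑ k ∈ range (m + 1), c k * y ^ k) ∧
      ∑ k ∈ range (m + 1), c k * df k ≤ ε := by
  obtain ⟨g, h0, h1⟩ := poly_end_poly ε hε
  refine ⟨(g * g).natDegree, (g * g).coeff, ?_, ?_, h1⟩
  · rw [Polynomial.mul_coeff_zero, h0, one_mul]
  · intro y
    rw [← Polynomial.eval_eq_sum_range, Polynomial.eval_mul]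
    exact mul_self_nonneg _


end Pool.Agent.Helper25.T5
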