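import Pool.Agent.Helper15.T5.Stmts
import Pool.Agent.Helper25.T5.PolyEnd

set_option autoImplicit false

/-! Row HPOL. -/

open Finset

namespace Pool.Agent.Helper15.T5

open Pool.Agent.Helper46.T5

theorem st_HPOL : ST_HPOL := by
  intro ε hε
  obtain ⟨g, h0, h1⟩ := Pool.Agent.Helper25.T5.poly_end_poly ε hε
  refine ⟨g * g, ?_, ?_, h1⟩
  · intro y _
    rw [Polynomial.eval_mul]
    exact mul_self_nonneg _
  · rw [← Polynomial.coeff_zero_eq_eval_zero, Polynomial.mul_coeff_zero, h0, one_mul]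

end Pool.Agent.Helper15.T5
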