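import Pool.Agent.Helper46.T5.Stmts

set_option autoImplicit false

/-!
Row SCAL: scaling of the Gaussian integral.
-/

open Finset MeasureTheory Filter Topology

namespace Pool.Agent.Helper46.T5

open Pool.Agent.Helper15.T4

lemma h25_P {J : Type} [Fintype J] [DecidableEq J] (x : (J → Fin 3) → ℝ) :
    (mJ J).P x = ((TJ J x x x : ℝ) : ℂ) := by
  have hl : ∀ a : J → Fin 3, (mJ J).l a x = (x a : ℂ) := by
    intro a
    unfold Mdl.l mJ
    simp
  unfold Mdl.P Mdl.T TJ
  push_cast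
  refine Finset.sum_congr rfl (fun a _ => Finset.sum_congr rfl (fun b _ => Finset.sum_congr rfl
    (fun c _ => ?_)))
  rw [hl, hl, hl]
  congr 3
  unfold mJ
  push_cast
  rfl

lemma h25_TJ_smul {J : Type} [Fintype J] [DecidableEq J] (s : ℝ) (x : (J → Fin 3) → ℝ) :
    TJ J (s • x) (s • x) (s • x) = s ^ 3 * TJ J x x x := by
  unfold TJ
  rw [Finset.mul_sum]
  refine Finset.sum_congr rfl (fun a _ => ?_)
  rw [Finset.mul_sum]
  refine Finset.sum_congr rfl (fun b _ => ?_)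
  rw [Finset.mul_sum]
  refine Finset.sum_congr rfl (fun c _ => ?_)
  simp only [Pi.smul_apply, smul_eq_mul]
  ring

lemma h25_nsq_smul {ι : Type} [Fintype ι] (s : ℝ) (x : ι → ℝ) : nsq (s • x) = s ^ 2 * nsq x := by
  unfold nsq
  rw [Finset.mul_sum]
  refine Finset.sum_congr rfl (fun i _ => ?_)
  simp only [Pi.smul_apply, smul_eq_mul]
  ring

theorem st_SCAL : ST_SCAL := by
  intro K N hN
  have hN0 : (0 : ℝ) < N := by exact_mod_cast hN
  have hcard : Fintype.card (Fin K × Fin 2 → Fin 3) = 9 ^ K := by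
    rw [Fintype.card_fun, Fintype.card_prod, Fintype.card_fin, Fintype.card_fin,
      Fintype.card_fin, mul_comm, pow_mul]
    norm_num
  set J := Fin K × Fin 2 with hJ
  set D : ℕ := 9 ^ K with hD
  have h6 : (0 : ℝ) < 6 * N := by positivity
  set s : ℝ := Real.sqrt (6 * N) with hs
  have hs0 : 0 < s := Real.sqrt_pos.mpr h6
  have hs2 : s ^ 2 = 6 * N := Real.sq_sqrt h6.le
  have hq0 : (0 : ℝ) < qq := by unfold qq; positivity
  -- the integrand
  set F : ((J → Fin 3) → ℝ) → ℝ := fun x => TJ J x x x ^ (2 * N) * Real.exp (-(nsq x) / 2) with hF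
  have h1 : GI (fun x => (mJ J).P x ^ (2 * N)) =
      (((2 * Real.pi) ^ (-(D : ℝ) / 2) * ∫ x, F x : ℝ) : ℂ) := by
    unfold GI
    have e1 : (fun x : (J → Fin 3) → ℝ => (mJ J).P x ^ (2 * N) * ((Real.exp (-(nsq x) / 2) : ℝ) : ℂ)) =
        fun x => ((F x : ℝ) : ℂ) := by
      funext x
      rw [h25_P, hF]
      push_cast
      rfl
    rw [e1, integral_complex_ofReal, hcard]
    push_cast
    rfl
  have h2 : ∫ x, F x = s ^ D * ∫ y, F (s • y) := by
    have h3 := Measure.integral_comp_smul (volume : Measure ((J → Fin 3) → ℝ)) F s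
    have h4 : Module.finrank ℝ ((J → Fin 3) → ℝ) = D := by
      rw [Module.finrank_fintype_fun_eq_card, hcard]
    rw [h4, smul_eq_mul] at h3
    rw [h3, abs_of_pos (by positivity), ← mul_assoc, mul_inv_cancel₀ (by positivity), one_mul]
  have h5 : ∀ y, F (s • y) = ((6 * (N : ℝ)) ^ (3 * N) * Real.exp (-3) ^ N * (qq ^ (2 * K)) ^ N) *
      fv K y ^ (2 * N) := by
    intro y
    have e1 : F (s • y) = TJ J (s • y) (s • y) (s • y) ^ (2 * N) * Real.exp (-(nsq (s • y)) / 2) := rfl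
    rw [e1, h25_TJ_smul, h25_nsq_smul, hs2]
    unfold fv
    have e2 : (s ^ 3 * TJ J y y y) ^ (2 * N) = (6 * (N : ℝ)) ^ (3 * N) * TJ J y y y ^ (2 * N) := by
      rw [mul_pow, ← pow_mul, ← hs2, ← pow_mul]
      congr 2
      ring
    have e3 : (TJ J y y y * Real.exp (-(3 / 2) * (nsq y - 1)) / qq ^ K) ^ (2 * N) =
        TJ J y y y ^ (2 * N) * Real.exp (-(3 / 2) * (nsq y - 1)) ^ (2 * N) / (qq ^ (2 * K)) ^ N := by
      rw [div_pow, mul_pow, ← pow_mul, ← pow_mul]
      congr 2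
      ring
    rw [e2, e3, ← Real.exp_nat_mul, ← Real.exp_nat_mul]
    have e4 : Real.exp (-(6 * (N : ℝ) * nsq y) / 2) =
        Real.exp ((N : ℝ) * -3) * Real.exp (((2 * N : ℕ) : ℝ) * (-(3 / 2) * (nsq y - 1))) := by
      rw [← Real.exp_add]
      congr 1
      push_cast
      ring
    rw [e4]
    have hqK : (qq ^ (2 * K)) ^ N ≠ 0 := by positivity
    field_simp
  rw [h1]
  congr 1
  rw [h2]
  have h6' : (fun y => F (s • y)) = fun y => ((6 * (N : ℝ)) ^ (3 * N) * Real.exp (-3) ^ N * (qq ^ (2 * K)) ^ N) *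
      fv K y ^ (2 * N) := funext h5
  rw [h6', integral_const_mul]
  have h7 : (2 * Real.pi) ^ (-(D : ℝ) / 2) * s ^ D = (3 * (N : ℝ) / Real.pi) ^ ((9 : ℝ) ^ K / 2) := by
    have hDr : (D : ℝ) = (9 : ℝ) ^ K := by rw [hD]; push_cast; rfl
    have e1 : s ^ D = (6 * (N : ℝ)) ^ ((D : ℝ) / 2) := by
      rw [hs, Real.sqrt_eq_rpow, ← Real.rpow_natCast, ← Real.rpow_mul h6.le]
      congr 1
      ring
    have e2 : (2 * Real.pi) ^ (-(D : ℝ) / 2) = ((2 * Real.pi)⁻¹) ^ ((D : ℝ) / 2) := by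
      rw [neg_div, Real.rpow_neg (by positivity), Real.inv_rpow (by positivity)]
    rw [e1, e2, ← Real.mul_rpow (by positivity) (by positivity), hDr]
    congr 1
    field_simp
    ring
  unfold NF
  rw [← h7]
  ring

end Pool.Agent.Helper46.T5
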