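import Pool.Agent.Helper15.T5.Stmts
import Pool.Agent.Helper25.T5.SCAL

set_option autoImplicit false

/-!
Rows XZ and MJ: the replica model.
-/

open Finset MeasureTheory Filter Topology

namespace Pool.Agent.Helper15.T5

open Pool.Agent.Helper15.T4 Pool.Agent.Helper46.T5

lemma h25_pairC {J : Type} [Fintype J] [DecidableEq J] {H : Type} (σ : H → J → Fin 3) (e : Sym2 H) :
    pairC (mJ J).S (e.map σ) = ∏ j, if (e.map (fun h => σ h j)).IsDiag then (1 : ℂ) else 0 := by
  induction e using Sym2.ind with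
  | _ a b =>
    have h1 : pairC (mJ J).S (s(a, b).map σ) =
        ∑ i : J → Fin 3, (if σ a = i then (1 : ℂ) else 0) * (if σ b = i then (1 : ℂ) else 0) := rfl
    have h2 : ∀ j, (if ((s(a, b) : Sym2 H).map (fun h => σ h j)).IsDiag then (1 : ℂ) else 0) =
        if σ a j = σ b j then 1 else 0 := by
      intro j
      rw [Sym2.map_mk]
      simp only [Sym2.mk_isDiag_iff]
    rw [h1]
    simp only [h2]
    rw [Finset.prod_boole, Finset.sum_eq_single (σ a)]
    · rw [if_pos rfl, one_mul]
      by_cases h : σ b = σ a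
      · rw [if_pos h, if_pos]
        intro j _
        rw [h]
      · rw [if_neg h, if_neg]
        intro h3
        apply h
        funext j
        exact (h3 j (Finset.mem_univ j)).symm
    · intro i _ hi
      rw [if_neg (Ne.symm hi), zero_mul]
    · intro h
      exact absurd (Finset.mem_univ _) h

lemma h25_Zc {n : ℕ} (M : Finset (Sym2 (HE n))) :
    ((Zc M : ℤ) : ℂ) = ∑ τ : HE n → Fin 3,
      (∏ v, ((eps (τ (v, 0)) (τ (v, 1)) (τ (v, 2)) : ℤ) : ℂ)) *
        ∏ e ∈ M, if (e.map τ).IsDiag then (1 : ℂ) else 0 := by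
  unfold Zc
  rw [Finset.sum_filter]
  push_cast
  refine Finset.sum_congr rfl (fun τ _ => ?_)
  rw [Finset.prod_boole]
  by_cases h : ∀ h h' : HE n, s(h, h') ∈ M → τ h = τ h'
  · rw [if_pos h, if_pos, mul_one]
    intro e he
    induction e using Sym2.ind with
    | _ a b =>
      rw [Sym2.map_mk]
      simp only [Sym2.mk_isDiag_iff]
      exact h a b he
  · rw [if_neg h, if_neg, mul_zero]
    intro h3
    apply h
    intro a b hab
    have := h3 _ hab
    rw [Sym2.map_mk] at this
    simpa only [Sym2.mk_isDiag_iff] using this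

theorem st_XZ : ST_XZ := by
  classical
  intro J _ _ n M
  rw [h25_Zc]
  have h1 : (mJ J).X M = ∑ σ : HE n → (J → Fin 3),
      (∏ v, (∏ j, ((eps (σ (v, 0) j) (σ (v, 1) j) (σ (v, 2) j) : ℤ) : ℂ))) *
        ∏ e ∈ M, ∏ j, if (e.map (fun h => σ h j)).IsDiag then (1 : ℂ) else 0 := by
    unfold Mdl.X
    refine Finset.sum_congr rfl (fun σ _ => ?_)
    congr 1
    · refine Finset.prod_congr rfl (fun v _ => ?_)
      unfold mJ
      push_cast
      rfl
    · refine Finset.prod_congr rfl (fun e _ => ?_)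
      exact h25_pairC σ e
  have h2 : (mJ J).X M = ∑ σ : J → (HE n → Fin 3),
      ∏ j, ((∏ v, ((eps (σ j (v, 0)) (σ j (v, 1)) (σ j (v, 2)) : ℤ) : ℂ)) *
        ∏ e ∈ M, if (e.map (σ j)).IsDiag then (1 : ℂ) else 0) := by
    rw [h1]
    refine Fintype.sum_equiv (Equiv.piComm (fun (_ : HE n) (_ : J) => Fin 3)) _ _ (fun σ => ?_)
    rw [Finset.prod_mul_distrib, Finset.prod_comm]
    congr 1
    rw [Finset.prod_comm]
    rfl
  rw [h2]
  have h3 := Finset.prod_univ_sum (fun _ : J => (Finset.univ : Finset (HE n → Fin 3)))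
    (fun _ τ => (∏ v, ((eps (τ (v, 0)) (τ (v, 1)) (τ (v, 2)) : ℤ) : ℂ)) *
        ∏ e ∈ M, if (e.map τ).IsDiag then (1 : ℂ) else 0)
  rw [Finset.prod_const, Finset.card_univ, Fintype.piFinset_univ] at h3
  exact h3.symm

lemma h25_l {J : Type} [Fintype J] [DecidableEq J] (a : J → Fin 3) (x : (J → Fin 3) → ℝ) :
    (mJ J).l a x = (x a : ℂ) := by
  unfold Mdl.l mJ
  simp

lemma h25_eps (a b c : Fin 3) : eps b a c = - eps a b c ∧ eps a c b = - eps a b c := by
  revert a b c
  decide

theorem st_MJ : ST_MJ := by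
  intro J _ _
  refine ⟨?_, ?_, ?_, ?_⟩
  · intro he a b c
    have h1 : ∀ (f g : J → ℤ), (∀ j, f j = - g j) → ∏ j, ((f j : ℤ) : ℝ) = ∏ j, ((g j : ℤ) : ℝ) := by
      intro f g hfg
      have : ∀ j, ((f j : ℤ) : ℝ) = (-1) * ((g j : ℤ) : ℝ) := by
        intro j
        rw [hfg j]
        push_cast
        ring
      rw [Finset.prod_congr rfl (fun j _ => this j), Finset.prod_mul_distrib, Finset.prod_const,
        Finset.card_univ, he.neg_one_pow, one_mul]
    refine ⟨(h1 _ _ (fun j => (h25_eps (a j) (b j) (c j)).1)).symm, (h1 _ _ (fun j => (h25_eps (a j) (b j) (c j)).2)).symm⟩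
  · ext a b
    unfold Mdl.AM mJ
    rw [Matrix.one_apply]
    simp only [ite_mul, one_mul, zero_mul]
    rw [Finset.sum_ite_eq, if_pos (Finset.mem_univ a)]
    by_cases h : a = b
    · rw [if_pos h, if_pos h.symm]
    · rw [if_neg h, if_neg (fun h3 => h h3.symm)]
  · intro x y z
    unfold Mdl.T TJ
    push_cast
    refine Finset.sum_congr rfl (fun a _ => Finset.sum_congr rfl (fun b _ => Finset.sum_congr rfl
      (fun c _ => ?_)))
    rw [h25_l, h25_l, h25_l]
    congr 3
    unfold mJ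
    push_cast
    rfl
  · intro x a b
    unfold Mdl.R
    push_cast
    refine Finset.sum_congr rfl (fun c _ => ?_)
    rw [h25_l]
    congr 1
    unfold mJ
    push_cast
    rfl

end Pool.Agent.Helper15.T5
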